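import Pool.Agent.H138R3.NCNot

/-!
# An interior naively convex cocompact representation that is not convex cocompact

The question of the problem has a negative answer: there are a convex cocompact subgroup `Γ`
of `PGL(4, ℝ)` (isomorphic to the infinite dihedral group) and a representation `ρ` of `Γ` in
the interior of the naively convex cocompact locus, whose image is not convex cocompact.
-/

namespace Pool.Agent.Results.MP_7d68c1_gt.NaiveInterior

open scoped LinearAlgebra.Projectivization MatrixGroups Topology
open Pool.Agent.H138R3.NC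

variable {ι : Type} [Fintype ι] [DecidableEq ι]

/-- The topology of pointwise convergence on the set of representations of `Γ`. -/
noncomputable instance instTopHom (Γ : Subgroup (PGL(ι, ℝ))) : TopologicalSpace (Γ →* PGL(ι, ℝ)) :=
  TopologicalSpace.induced (fun ρ => (ρ : Γ → PGL(ι, ℝ))) inferInstance

/-- The set of naively convex cocompact representations of `Γ`: the faithful ones with naively
convex cocompact image. -/
def naiveLocus (Γ : Subgroup (PGL(ι, ℝ))) : Set (Γ →* PGL(ι, ℝ)) :=
  {ρ | Function.Injective ρ ∧ NaivelyConvexCocompact ρ.range}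

theorem continuous_eval (Γ : Subgroup (PGL(ι, ℝ))) (x : Γ) :
    Continuous (fun ρ : Γ →* PGL(ι, ℝ) => ρ x) :=
  (continuous_apply x).comp continuous_induced_dom

/-- For some convex cocompact subgroup `Γ` of `PGL(4, ℝ)`, some representation in the interior
of the naively convex cocompact locus has an image which is not convex cocompact. -/
theorem result : ∃ Γ : Subgroup (PGL(Fin 4, ℝ)), ConvexCocompact Γ ∧
    ∃ ρ : Γ →* PGL(Fin 4, ℝ), ρ ∈ interior (naiveLocus Γ) ∧ ¬ ConvexCocompact ρ.range := by
  have h2 : 1 < (two : ℝ) := by rw [two_val]; norm_num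
  have h1 : (1 : ℝ) ≤ ((1 : ℝˣ) : ℝ) := by simp
  have hinj := std_injective (a := two) (b := 1) h2 h1
  let e : DihedralGroup 0 ≃* (std two 1).range := MonoidHom.ofInjective hinj
  have hrange : ∀ ρ : (std two 1).range →* PGL(Fin 4, ℝ),
      (ρ.comp e.toMonoidHom).range = ρ.range := by
    intro ρ
    ext g
    constructor
    · rintro ⟨x, rfl⟩
      exact ⟨e x, rfl⟩
    · rintro ⟨x, rfl⟩
      exact ⟨e.symm x, by simp⟩
  have hcomp : ((std two two).comp e.symm.toMonoidHom).comp e.toMonoidHom = std two two := by
    ext x
    simp
  refine ⟨(std two 1).range, base_cc, (std two two).comp e.symm.toMonoidHom, ?_, ?_⟩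
  · rw [mem_interior]
    refine ⟨{ρ | (ρ (e (.sr 0)), ρ (e (.sr 1))) ∈ Uset}, ?_, ?_, ?_⟩
    · intro ρ hρ
      have hgood : Good (ρ.comp e.toMonoidHom) := good_of_mem_Uset hρ
      refine ⟨?_, ?_⟩
      · intro x y hxy
        have : (ρ.comp e.toMonoidHom) (e.symm x) = (ρ.comp e.toMonoidHom) (e.symm y) := by
          simpa using hxy
        exact e.symm.injective (hgood.1 this)
      · rw [← hrange]
        exact hgood.2
    · exact isOpen_Uset.preimage
        ((continuous_eval _ (e (.sr 0))).prodMk (continuous_eval _ (e (.sr 1))))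
    · have := base_mem_Uset
      rw [← hcomp] at this
      exact this
  · rw [← hrange, hcomp]
    exact std_not_cc

end Pool.Agent.Results.MP_7d68c1_gt.NaiveInterior
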